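import Mathlib

set_option autoImplicit false

open Filter Topology

namespace Pool.Agent.Results.MP_43f217_an.MaximalOperatorNotClosed

section defs

variable {X : Type} {E : X → Type} [∀ x, NormedAddCommGroup (E x)]
  [∀ x, InnerProductSpace ℂ (E x)]

/-- `b` is a weighted graph on `X`. -/
def IsGraph (b : X → X → ℝ) : Prop :=
  (∀ x y, 0 ≤ b x y) ∧ (∀ x y, b x y = b y x) ∧ (∀ x, b x x = 0) ∧ ∀ x, Summable (b x)

/-- `Φ` is a unitary connection: `Φ_{y,x}` is the inverse of `Φ_{x,y}`. -/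
def IsConnection (Φ : ∀ x y, E y ≃ₗᵢ[ℂ] E x) : Prop := ∀ x y, Φ y x = (Φ x y).symm

/-- `W` is a self-adjoint endomorphism of the bundle (bounded on each fibre). -/
def IsSelfAdj (W : ∀ x, E x →L[ℂ] E x) : Prop :=
  ∀ x (u v : E x), inner ℂ (W x u) v = inner ℂ u (W x v)

/-- Membership in `ℓ²(X, μ; E)`. -/
def Ell2 (μ : X → ℝ) (f : ∀ x, E x) : Prop := Summable fun x => ‖f x‖ ^ 2 * μ x

/-- The squared `ℓ²` norm. -/
noncomputable def nsq (μ : X → ℝ) (f : ∀ x, E x) : ℝ := ∑' x, ‖f x‖ ^ 2 * μ x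

/-- The formal domain. -/
def FormalDom (b : X → X → ℝ) (f : ∀ x, E x) : Prop := ∀ x, Summable fun y => b x y * ‖f y‖

/-- The formal magnetic Schrödinger operator. -/
noncomputable def formal (b : X → X → ℝ) (μ : X → ℝ) (Φ : ∀ x y, E y ≃ₗᵢ[ℂ] E x)
    (W : ∀ x, E x →L[ℂ] E x) (f : ∀ x, E x) (x : X) : E x :=
  ((1 / μ x : ℝ) : ℂ) • (∑' y, ((b x y : ℝ) : ℂ) • (f x - Φ x y (f y))) + W x (f x)

/-- The domain of the maximal restriction. -/
def MaxDom (b : X → X → ℝ) (μ : X → ℝ) (Φ : ∀ x y, E y ≃ₗᵢ[ℂ] E x)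
    (W : ∀ x, E x →L[ℂ] E x) (f : ∀ x, E x) : Prop :=
  FormalDom b f ∧ Ell2 μ f ∧ Ell2 μ (formal b μ Φ W f)

/-- The maximal restriction is a closed operator: its graph is closed in `ℓ² × ℓ²`. -/
def MaxClosed (b : X → X → ℝ) (μ : X → ℝ) (Φ : ∀ x y, E y ≃ₗᵢ[ℂ] E x)
    (W : ∀ x, E x →L[ℂ] E x) : Prop :=
  ∀ (F : ℕ → ∀ x, E x) (f g : ∀ x, E x), (∀ n, MaxDom b μ Φ W (F n)) → Ell2 μ f → Ell2 μ g →
    Tendsto (fun n => nsq μ (fun x => F n x - f x)) atTop (𝓝 0) →
    Tendsto (fun n => nsq μ (fun x => formal b μ Φ W (F n) x - g x)) atTop (𝓝 0) →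
    MaxDom b μ Φ W f ∧ formal b μ Φ W f = g

end defs

/-! ### The example: a star with centre `0` and leaves `k + 1` -/

noncomputable def bb : ℕ → ℕ → ℝ
  | 0, k + 1 => (1 / 2) ^ k
  | k + 1, 0 => (1 / 2) ^ k
  | _, _ => 0

noncomputable def mm : ℕ → ℝ
  | 0 => 1
  | k + 1 => (1 / 8) ^ k

noncomputable def ph : ∀ _ _ : ℕ, ℂ ≃ₗᵢ[ℂ] ℂ := fun _ _ => LinearIsometryEquiv.refl ℂ ℂ

noncomputable def wr : ℕ → ℝ
  | 0 => 0
  | k + 1 => -(4 ^ k)

noncomputable def WW : ∀ _ : ℕ, ℂ →L[ℂ] ℂ := fun x => ((wr x : ℝ) : ℂ) • ContinuousLinearMap.id ℂ ℂ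

/-- the limit function -/
noncomputable def ff : ℕ → ℂ
  | 0 => 0
  | k + 1 => (((-1) ^ k * 2 ^ k / ((k : ℝ) + 1) : ℝ) : ℂ)

/-- its truncations -/
noncomputable def fn (n : ℕ) : ℕ → ℂ
  | 0 => 0
  | k + 1 => if k < n then ff (k + 1) else 0

lemma bb_zero_zero : bb 0 0 = 0 := rfl
lemma bb_zero_succ (k : ℕ) : bb 0 (k + 1) = (1 / 2) ^ k := rfl
lemma bb_succ_zero (k : ℕ) : bb (k + 1) 0 = (1 / 2) ^ k := rfl
lemma bb_succ_succ (k j : ℕ) : bb (k + 1) (j + 1) = 0 := rfl

lemma graph : IsGraph bb := by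
  refine ⟨?_, ?_, ?_, ?_⟩
  · intro x y
    cases x <;> cases y <;> simp [bb_zero_zero, bb_zero_succ, bb_succ_zero, bb_succ_succ]
  · intro x y
    cases x <;> cases y <;> simp [bb_zero_succ, bb_succ_zero, bb_succ_succ]
  · intro x
    cases x <;> simp [bb_zero_zero, bb_succ_succ]
  · intro x
    rw [← summable_nat_add_iff 1]
    cases x with
    | zero => exact summable_geometric_of_lt_one (by norm_num) (by norm_num)
    | succ k => exact summable_zero

/-- the formal operator in the example, at functions vanishing at the centre -/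
lemma formal_succ (f : ℕ → ℂ) (h0 : f 0 = 0) (k : ℕ) :
    formal (E := fun _ => ℂ) bb mm ph WW f (k + 1) = 0 := by
  unfold formal
  rw [tsum_eq_single 0]
  · show ((1 / mm (k + 1) : ℝ) : ℂ) • (((bb (k + 1) 0 : ℝ) : ℂ) • (f (k + 1) - f 0)) +
      ((wr (k + 1) : ℝ) : ℂ) • f (k + 1) = 0
    rw [h0, sub_zero, bb_succ_zero]
    simp only [mm, wr, smul_eq_mul]
    have e : (1 / (1 / 8 : ℝ) ^ k) * (1 / 2) ^ k = 4 ^ k := by
      rw [one_div, ← inv_pow, ← mul_pow]; norm_num
    have e2 : ((1 / (1 / 8 : ℝ) ^ k : ℝ) : ℂ) * (((1 / 2 : ℝ) ^ k : ℝ) : ℂ) = ((4 ^ k : ℝ) : ℂ) := by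
      rw [← Complex.ofReal_mul, e]
    rw [← mul_assoc, e2]
    push_cast
    ring
  · intro y hy
    obtain ⟨j, rfl⟩ := Nat.exists_eq_succ_of_ne_zero hy
    show ((bb (k + 1) (j + 1) : ℝ) : ℂ) • _ = (0 : ℂ)
    rw [bb_succ_succ]; simp

lemma formal_zero (n : ℕ) :
    formal (E := fun _ => ℂ) bb mm ph WW (fn n) 0 =
      ((-(∑ k ∈ Finset.range n, (-1) ^ k * (1 / ((k : ℝ) + 1))) : ℝ) : ℂ) := by
  unfold formal
  have hs : ∑' y, ((bb 0 y : ℝ) : ℂ) • (fn n 0 - ph 0 y (fn n y)) =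
      ∑ y ∈ Finset.range (n + 1), ((bb 0 y : ℝ) : ℂ) • (fn n 0 - ph 0 y (fn n y)) := by
    apply tsum_eq_sum
    intro y hy
    rw [Finset.mem_range, not_lt] at hy
    obtain ⟨j, rfl⟩ := Nat.exists_eq_succ_of_ne_zero (by omega : y ≠ 0)
    show ((bb 0 (j + 1) : ℝ) : ℂ) • ((0 : ℂ) - if j < n then ff (j + 1) else 0) = 0
    rw [if_neg (by omega)]; simp
  have hs' : ∑' y, ((bb 0 y : ℝ) : ℂ) • (fn n 0 - ph 0 y (fn n y)) =
      ((-(∑ k ∈ Finset.range n, (-1) ^ k * (1 / ((k : ℝ) + 1))) : ℝ) : ℂ) := by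
    rw [hs, Finset.sum_range_succ', ← Finset.sum_neg_distrib]
    have h0 : ((bb 0 0 : ℝ) : ℂ) • (fn n 0 - ph 0 0 (fn n 0)) = 0 := by
      rw [bb_zero_zero]; simp
    rw [h0, add_zero, Complex.ofReal_sum]
    refine Finset.sum_congr rfl fun k hk => ?_
    show ((bb 0 (k + 1) : ℝ) : ℂ) • ((0 : ℂ) - if k < n then ff (k + 1) else 0) = _
    rw [if_pos (Finset.mem_range.1 hk), bb_zero_succ, zero_sub, smul_eq_mul]
    unfold ff
    rw [← Complex.ofReal_neg, ← Complex.ofReal_mul]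
    congr 1
    have e : (1 / 2 : ℝ) ^ k * 2 ^ k = 1 := by rw [← mul_pow]; norm_num
    have : (1 / 2 : ℝ) ^ k * -((-1) ^ k * 2 ^ k / ((k : ℝ) + 1)) =
        -(((1 / 2 : ℝ) ^ k * 2 ^ k) * ((-1) ^ k * (1 / ((k : ℝ) + 1)))) := by ring
    rw [this, e, one_mul]
  have hW : WW 0 (fn n 0) = 0 := by
    show ((wr 0 : ℝ) : ℂ) • fn n 0 = 0
    show ((0 : ℝ) : ℂ) • fn n 0 = 0
    simp
  show ((1 / mm 0 : ℝ) : ℂ) • (∑' y, ((bb 0 y : ℝ) : ℂ) • (fn n 0 - ph 0 y (fn n y))) +
    WW 0 (fn n 0) = _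
  rw [hs', hW, add_zero]
  show ((1 / (1 : ℝ) : ℝ) : ℂ) • _ = _
  simp

lemma normsq_ff (k : ℕ) : ‖ff (k + 1)‖ ^ 2 * mm (k + 1) ≤ (1 / 2) ^ k := by
  unfold ff mm
  rw [Complex.norm_real, Real.norm_eq_abs, sq_abs, div_pow, mul_pow]
  have e1 : (((-1 : ℝ) ^ k)) ^ 2 = 1 := by
    rw [← pow_mul, mul_comm, pow_mul]; norm_num
  have e2 : ((2 : ℝ) ^ k) ^ 2 * (1 / 8) ^ k = (1 / 2) ^ k := by
    rw [← pow_mul, mul_comm k 2, pow_mul, ← mul_pow]; norm_num
  rw [e1, one_mul, div_mul_eq_mul_div, e2]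
  apply div_le_self (by positivity)
  have : (0:ℝ) ≤ k := Nat.cast_nonneg k
  nlinarith

lemma ff_ell2 : Ell2 (E := fun _ => ℂ) mm ff := by
  unfold Ell2
  rw [← summable_nat_add_iff 1]
  refine Summable.of_nonneg_of_le (fun k => ?_) normsq_ff
    (summable_geometric_of_lt_one (by norm_num) (by norm_num) : Summable fun k : ℕ => ((1:ℝ)/2) ^ k)
  have : 0 ≤ mm (k + 1) := by unfold mm; positivity
  positivity

/-- The maximal restriction of a (scalar) Schrödinger operator on a star is not closed. -/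
theorem result : ∃ (X : Type) (_ : Countable X) (E : X → Type)
    (_ : ∀ x, NormedAddCommGroup (E x)) (_ : ∀ x, InnerProductSpace ℂ (E x))
    (_ : ∀ x, CompleteSpace (E x)) (b : X → X → ℝ) (μ : X → ℝ)
    (Φ : ∀ x y, E y ≃ₗᵢ[ℂ] E x) (W : ∀ x, E x →L[ℂ] E x),
    IsGraph b ∧ (∀ x, 0 < μ x) ∧ IsConnection Φ ∧ IsSelfAdj W ∧ ¬ MaxClosed b μ Φ W := by
  refine ⟨ℕ, inferInstance, fun _ => ℂ, fun _ => inferInstance, fun _ => inferInstance,
    fun _ => inferInstance, bb, mm, ph, WW, graph, ?_, ?_, ?_, ?_⟩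
  · intro x
    cases x with
    | zero => exact one_pos
    | succ k => show (0:ℝ) < (1 / 8) ^ k; positivity
  · intro x y
    rfl
  · intro x u v
    show inner ℂ (((wr x : ℝ) : ℂ) • u) v = inner ℂ u (((wr x : ℝ) : ℂ) • v)
    rw [inner_smul_left, inner_smul_right]
    simp
  · intro hcl
    have hanti : Antitone (fun k : ℕ => 1 / ((k : ℝ) + 1)) := by
      intro i j hij
      apply one_div_le_one_div_of_le (by positivity)
      have : (i : ℝ) ≤ j := by exact_mod_cast hij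
      linarith
    obtain ⟨l, hl⟩ := hanti.tendsto_alternating_series_of_tendsto_zero
      tendsto_one_div_add_atTop_nhds_zero_nat
    set g : ℕ → ℂ := fun x => if x = 0 then ((-l : ℝ) : ℂ) else 0 with hg
    have hfin : ∀ (u : ℕ → ℂ), (∀ k, u (k + 1) = 0) → Ell2 (E := fun _ => ℂ) mm u := by
      intro u hu
      unfold Ell2
      rw [← summable_nat_add_iff 1]
      have : (fun n => ‖u (n + 1)‖ ^ 2 * mm (n + 1)) = fun _ => 0 := by
        funext n; rw [hu]; simp
      rw [this]; exact summable_zero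
    have hres := hcl fn ff g ?_ ff_ell2 (hfin g fun k => by simp [hg]) ?_ ?_
    · -- the limit is not in the formal domain
      have h1 := hres.1.1 0
      rw [← summable_nat_add_iff 1] at h1
      have h2 : (fun k => bb 0 (k + 1) * ‖ff (k + 1)‖) = fun k : ℕ => 1 / ((k : ℝ) + 1) := by
        funext k
        rw [bb_zero_succ]
        unfold ff
        rw [Complex.norm_real, Real.norm_eq_abs, abs_div, abs_mul, abs_pow, abs_neg, abs_one,
          one_pow, one_mul, abs_of_pos (by positivity : (0:ℝ) < 2 ^ k),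
          abs_of_pos (by positivity : (0:ℝ) < (k : ℝ) + 1)]
        have e : (1 / 2 : ℝ) ^ k * 2 ^ k = 1 := by rw [← mul_pow]; norm_num
        rw [← mul_div_assoc, e]
      rw [h2] at h1
      have h3 := (summable_nat_add_iff (f := fun k : ℕ => 1 / (k : ℝ)) 1).1 (by
        simpa using h1)
      exact Real.not_summable_one_div_natCast h3
    · -- the truncations are in the domain
      intro n
      refine ⟨?_, ?_, ?_⟩
      · intro x
        apply summable_of_hasFiniteSupport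
        apply (Finset.range (n + 1)).finite_toSet.subset
        intro y hy
        by_contra hcon
        apply hy
        have hy' : n + 1 ≤ y := by simpa using hcon
        obtain ⟨j, rfl⟩ := Nat.exists_eq_succ_of_ne_zero (by omega : y ≠ 0)
        show bb x (j + 1) * ‖(if j < n then ff (j + 1) else 0 : ℂ)‖ = 0
        rw [if_neg (by omega)]; simp
      · unfold Ell2
        apply summable_of_hasFiniteSupport
        apply (Finset.range (n + 1)).finite_toSet.subset
        intro y hy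
        by_contra hcon
        apply hy
        have hy' : n + 1 ≤ y := by simpa using hcon
        obtain ⟨j, rfl⟩ := Nat.exists_eq_succ_of_ne_zero (by omega : y ≠ 0)
        show ‖(if j < n then ff (j + 1) else 0 : ℂ)‖ ^ 2 * mm (j + 1) = 0
        rw [if_neg (by omega)]; simp
      · exact hfin _ fun k => formal_succ (fn n) rfl k
    · -- convergence of the truncations
      unfold nsq
      have hz : (0 : ℝ) = ∑' _ : ℕ, (0 : ℝ) := by simp
      rw [hz]
      have hbs : Summable (fun x : ℕ => if x = 0 then (0:ℝ) else (1/2) ^ (x - 1)) := by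
        rw [← summable_nat_add_iff 1]
        simpa using (summable_geometric_of_lt_one (by norm_num) (by norm_num) :
          Summable fun k : ℕ => ((1:ℝ)/2) ^ k)
      refine tendsto_tsum_of_dominated_convergence hbs ?_ ?_
      · intro x
        cases x with
        | zero =>
          have : (fun n => ‖fn n 0 - ff 0‖ ^ 2 * mm 0) = fun _ => 0 := by
            funext n
            show ‖(0 : ℂ) - 0‖ ^ 2 * mm 0 = 0
            simp
          rw [this]; exact tendsto_const_nhds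
        | succ k =>
          apply tendsto_const_nhds.congr'
          filter_upwards [eventually_gt_atTop k] with n hn
          show (0:ℝ) = ‖(if k < n then ff (k + 1) else 0) - ff (k + 1)‖ ^ 2 * mm (k + 1)
          rw [if_pos hn]; simp
      · refine Eventually.of_forall fun n x => ?_
        cases x with
        | zero =>
          show ‖‖(0 : ℂ) - 0‖ ^ 2 * mm 0‖ ≤ _
          simp
        | succ k =>
          have hm : 0 ≤ mm (k + 1) := by unfold mm; positivity
          have hle : ‖fn n (k + 1) - ff (k + 1)‖ ≤ ‖ff (k + 1)‖ := by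
            show ‖(if k < n then ff (k + 1) else 0) - ff (k + 1)‖ ≤ _
            split_ifs <;> simp
          rw [Real.norm_of_nonneg (by positivity)]
          rw [if_neg (Nat.succ_ne_zero k)]
          calc ‖fn n (k + 1) - ff (k + 1)‖ ^ 2 * mm (k + 1) ≤ ‖ff (k + 1)‖ ^ 2 * mm (k + 1) := by gcongr
            _ ≤ (1 / 2) ^ k := normsq_ff k
    · -- convergence of the images
      have hn : ∀ n, nsq (E := fun _ => ℂ) mm
          (fun x => formal (E := fun _ => ℂ) bb mm ph WW (fn n) x - g x) =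
          ((∑ k ∈ Finset.range n, (-1) ^ k * (1 / ((k : ℝ) + 1))) - l) ^ 2 := by
        intro n
        unfold nsq
        rw [tsum_eq_single 0]
        · show ‖formal (E := fun _ => ℂ) bb mm ph WW (fn n) 0 - g 0‖ ^ 2 * (1:ℝ) = _
          rw [formal_zero]
          simp only [hg, if_true]
          rw [← Complex.ofReal_sub, Complex.norm_real, Real.norm_eq_abs, sq_abs]
          ring
        · intro x hx
          obtain ⟨k, rfl⟩ := Nat.exists_eq_succ_of_ne_zero hx
          have h1 := formal_succ (fn n) rfl k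
          show ‖formal (E := fun _ => ℂ) bb mm ph WW (fn n) (k + 1) - g (k + 1)‖ ^ 2 * _ = 0
          rw [h1]
          simp [hg]
      simp_rw [hn]
      have h2 := (hl.sub_const l).pow 2
      rw [sub_self] at h2
      simpa using h2

end Pool.Agent.Results.MP_43f217_an.MaximalOperatorNotClosed
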